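import Mathlib

/-!
# One excursion (row EXB of the board exa): real inequalities
-/

set_option autoImplicit false

namespace Pool.Agent.H98.EX

namespace EXB

/-- `exp z ≤ 1 + z + z ^ 2` for small `z` -/
lemma exp_le {z : ℝ} (h : |z| ≤ 1) : Real.exp z ≤ 1 + z + z ^ 2 := by
  have := (abs_le.1 (Real.abs_exp_sub_one_sub_id_le h)).2
  linarith

lemma cosh_le {z : ℝ} (h : |z| ≤ 1) : Real.cosh z ≤ 1 + z ^ 2 := by
  have h1 := exp_le h
  have h2 : Real.exp (-z) ≤ 1 + -z + (-z) ^ 2 := exp_le (by rwa [abs_neg])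
  rw [Real.cosh_eq]
  nlinarith

/-- the mean of two exponentials -/
lemma avg {y a b m : ℝ} (hy0 : 0 ≤ y) (hy1 : y ≤ 1) (hab : a + b ≤ 2 * m) (h1 : |b - a| ≤ 2) :
    (Real.exp (y * a) + Real.exp (y * b)) / 2 ≤ Real.exp (y * m) * (1 + y ^ 2) := by
  have hz : |y * ((b - a) / 2)| ≤ y := by
    rw [abs_mul, abs_of_nonneg hy0, abs_div]
    have : |b - a| / |(2 : ℝ)| ≤ 1 := by
      rw [abs_of_pos (by norm_num : (0 : ℝ) < 2)]
      linarith
    nlinarith
  have h2 : (Real.exp (y * a) + Real.exp (y * b)) / 2 =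
      Real.exp (y * ((a + b) / 2)) * Real.cosh (y * ((b - a) / 2)) := by
    rw [Real.cosh_eq, mul_div_assoc', mul_add, ← Real.exp_add, ← Real.exp_add]
    have e1 : y * ((a + b) / 2) + y * ((b - a) / 2) = y * b := by ring
    have e2 : y * ((a + b) / 2) + -(y * ((b - a) / 2)) = y * a := by ring
    rw [e1, e2, add_comm]
  have h3 := cosh_le (hz.trans hy1)
  have h4 : (y * ((b - a) / 2)) ^ 2 ≤ y ^ 2 := sq_le_sq' (by linarith [(abs_le.1 hz).1])
    (abs_le.1 hz).2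
  have h5 : Real.exp (y * ((a + b) / 2)) ≤ Real.exp (y * m) :=
    Real.exp_le_exp.2 (mul_le_mul_of_nonneg_left (by linarith) hy0)
  rw [h2]
  exact mul_le_mul h5 (h3.trans (by linarith)) (Real.cosh_pos _).le (Real.exp_pos _).le

/-- the drift -/
lemma key {y r σ t : ℝ} (hy0 : 0 ≤ y) (hy : y ≤ r / 8) (hr0 : 0 < r) (hr : r ≤ 1 / 8)
    (hσ : |σ| ≤ r / 8) (ht0 : 0 ≤ t) (ht : t ≤ r ^ 2 * y / 16) :
    Real.exp (2 * t) * (Real.exp (y * (1 / 4 + σ)) * Real.exp (y * r * (5 / 4 + r / 2 + σ)) +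
      Real.exp (y * (3 / 4 - σ)) * Real.exp (y * r * (-3 / 4 + r / 2 + σ))) ≤
    (Real.exp (y * (1 / 4 + σ)) + Real.exp (y * (3 / 4 - σ))) *
      (1 + r * (y / 4 * (1 + 8 * r))) := by
  obtain ⟨hσ1, hσ2⟩ := abs_le.1 hσ
  have hAB : Real.exp (y * (1 / 4 + σ)) ≤ Real.exp (y * (3 / 4 - σ)) :=
    Real.exp_le_exp.2 (mul_le_mul_of_nonneg_left (by linarith) hy0)
  have hA0 := Real.exp_pos (y * (1 / 4 + σ))
  generalize Real.exp (y * (1 / 4 + σ)) = A at hAB hA0 ⊢
  generalize Real.exp (y * (3 / 4 - σ)) = B at hAB ⊢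
  have hB0 : 0 < B := hA0.trans_le hAB
  have hyr0 : 0 ≤ y * r := mul_nonneg hy0 hr0.le
  have hyr2 : y * r ≤ r / 64 := by
    have := mul_le_mul_of_nonneg_right (show y ≤ 1 / 64 by linarith) hr0.le
    linarith
  have hyr1 : y * r ≤ 1 / 64 := by linarith
  set p : ℝ := 5 / 4 + r / 2 + σ with hp
  set q : ℝ := -3 / 4 + r / 2 + σ with hq
  have hp2 : p ^ 2 ≤ 2 := by
    have : p ^ 2 ≤ (4 / 3) ^ 2 := sq_le_sq' (by linarith) (by linarith)
    linarith
  have hq2 : q ^ 2 ≤ 2 := by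
    have : q ^ 2 ≤ 1 ^ 2 := sq_le_sq' (by linarith) (by linarith)
    linarith
  have hpa : |p| ≤ 2 := abs_le.2 ⟨by linarith, by linarith⟩
  have hqa : |q| ≤ 2 := abs_le.2 ⟨by linarith, by linarith⟩
  have hz1 : |y * r * p| ≤ 1 := by
    rw [abs_mul, abs_of_nonneg hyr0]
    have := mul_le_mul hyr1 hpa (abs_nonneg p) (by norm_num)
    linarith
  have hz2 : |y * r * q| ≤ 1 := by
    rw [abs_mul, abs_of_nonneg hyr0]
    have := mul_le_mul hyr1 hqa (abs_nonneg q) (by norm_num)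
    linarith
  have e1 := exp_le hz1
  have e2 := exp_le hz2
  have h20 : 0 ≤ (y * r) ^ 2 := sq_nonneg _
  have s1 : (y * r * p) ^ 2 ≤ 2 * (y * r) ^ 2 := by
    rw [mul_pow, mul_comm 2]
    exact mul_le_mul_of_nonneg_left hp2 h20
  have s2 : (y * r * q) ^ 2 ≤ 2 * (y * r) ^ 2 := by
    rw [mul_pow, mul_comm 2]
    exact mul_le_mul_of_nonneg_left hq2 h20
  have hX : A * Real.exp (y * r * p) + B * Real.exp (y * r * q) ≤
      (A + B) * (1 + y * r / 4 + 21 / 32 * (y * r) * r) := by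
    have g1 : A * Real.exp (y * r * p) ≤ A * (1 + y * r * p + 2 * (y * r) ^ 2) :=
      mul_le_mul_of_nonneg_left (by linarith) hA0.le
    have g2 : B * Real.exp (y * r * q) ≤ B * (1 + y * r * q + 2 * (y * r) ^ 2) :=
      mul_le_mul_of_nonneg_left (by linarith) hB0.le
    have g3 : A * p + B * q ≤ (A + B) / 4 + 5 / 8 * r * (A + B) := by
      have : A * p + B * q = (5 / 4 * A - 3 / 4 * B) + (r / 2 + σ) * (A + B) := by
        rw [hp, hq]; ring
      rw [this]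
      have k1 : (r / 2 + σ) * (A + B) ≤ (5 / 8 * r) * (A + B) :=
        mul_le_mul_of_nonneg_right (by linarith) (by linarith)
      linarith
    have g4 : (y * r) * (A * p + B * q) ≤ (y * r) * ((A + B) / 4 + 5 / 8 * r * (A + B)) :=
      mul_le_mul_of_nonneg_left g3 hyr0
    have g5 : 2 * (y * r) ^ 2 ≤ (y * r) * r / 32 := by
      have := mul_le_mul_of_nonneg_left hyr2 hyr0
      have e : (y * r) ^ 2 = y * r * (y * r) := sq _
      rw [e]
      linarith
    have g6 : 2 * (y * r) ^ 2 * (A + B) ≤ (y * r) * r / 32 * (A + B) :=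
      mul_le_mul_of_nonneg_right g5 (by linarith)
    have g7 : A * (1 + y * r * p + 2 * (y * r) ^ 2) + B * (1 + y * r * q + 2 * (y * r) ^ 2) =
        (A + B) + (y * r) * (A * p + B * q) + 2 * (y * r) ^ 2 * (A + B) := by ring
    have g8 : (A + B) * (1 + y * r / 4 + 21 / 32 * (y * r) * r) =
        (A + B) + (y * r) * ((A + B) / 4 + 5 / 8 * r * (A + B)) +
          (y * r) * r / 32 * (A + B) := by ring
    rw [g8]
    linarith
  have hw0 : 0 ≤ y * r * r := mul_nonneg hyr0 hr0.le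
  have ht4 : t ≤ y * r * r / 16 := ht.trans (le_of_eq (by ring))
  have hw1 : y * r * r ≤ 1 := by
    have := mul_le_mul hyr1 hr hr0.le (by norm_num)
    linarith
  have ht2 : 2 * t ≤ 1 := by linarith
  have ht3 : Real.exp (2 * t) ≤ 1 + y * r * r / 4 := by
    have h1 := exp_le (z := 2 * t) (by rw [abs_of_nonneg (by linarith)]; exact ht2)
    have h2 : (2 * t) ^ 2 ≤ 2 * t * 1 := by
      rw [sq]
      exact mul_le_mul_of_nonneg_left ht2 (by linarith)
    linarith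
  have hX0 : 0 ≤ A * Real.exp (y * r * p) + B * Real.exp (y * r * q) := by positivity
  calc Real.exp (2 * t) * (A * Real.exp (y * r * p) + B * Real.exp (y * r * q))
      ≤ (1 + y * r * r / 4) * ((A + B) * (1 + y * r / 4 + 21 / 32 * (y * r) * r)) :=
        mul_le_mul ht3 hX hX0 (by linarith)
    _ = (A + B) * ((1 + y * r * r / 4) * (1 + y * r / 4 + 21 / 32 * (y * r) * r)) := by ring
    _ ≤ (A + B) * (1 + r * (y / 4 * (1 + 8 * r))) := by
        apply mul_le_mul_of_nonneg_left _ (by linarith)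
        have k1 : y * r / 4 + 21 / 32 * (y * r) * r ≤ 1 := by
          have : 21 / 32 * (y * r) * r = 21 / 32 * (y * r * r) := by ring
          rw [this]
          linarith
        have k2 : y * r * r / 4 * (y * r / 4 + 21 / 32 * (y * r) * r) ≤ y * r * r / 4 * 1 :=
          mul_le_mul_of_nonneg_left k1 (by linarith)
        have k3 : (1 + y * r * r / 4) * (1 + y * r / 4 + 21 / 32 * (y * r) * r) =
            1 + y * r / 4 + 21 / 32 * (y * r * r) + y * r * r / 4 +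
              y * r * r / 4 * (y * r / 4 + 21 / 32 * (y * r) * r) := by ring
        have k4 : 1 + r * (y / 4 * (1 + 8 * r)) = 1 + y * r / 4 + 2 * (y * r * r) := by ring
        rw [k3, k4]
        linarith

/-- the square of the mean -/
lemma sqb {y E : ℝ} (hy0 : 0 ≤ y) (hy : y ≤ 1 / 64) (h1 : 1 + y ≤ E) (h2 : E ≤ 1 + y + y ^ 2) :
    1 + E * E * (1 + y ^ 2) ≤ 2 * (E * (1 + y ^ 2) ^ 2) := by
  have h3 : y ^ 2 ≤ 1 / 64 * (1 / 64) := by
    rw [sq]
    exact mul_le_mul hy hy hy0 (by norm_num)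
  have hEu : E ≤ 1 + 1 / 32 := by linarith
  have hq1 : (E - 1) ^ 2 ≤ y ^ 2 * (1 + y) ^ 2 := by
    have : (E - 1) ^ 2 ≤ (y + y ^ 2) ^ 2 :=
      sq_le_sq' (by linarith [sq_nonneg y]) (by linarith)
    refine this.trans (le_of_eq ?_)
    ring
  have hq2 : (1 + y) ^ 2 ≤ 2 := by
    have : (1 + y) ^ 2 = 1 + 2 * y + y ^ 2 := by ring
    linarith
  have hq3 : y ^ 2 * (1 + y) ^ 2 ≤ y ^ 2 * 2 := mul_le_mul_of_nonneg_left hq2 (sq_nonneg y)
  have hE0 : 0 ≤ E := by linarith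
  have hq4 : E * E ≤ 2 := by
    have : E * E ≤ (1 + 1 / 32) * (1 + 1 / 32) := mul_le_mul hEu hEu hE0 (by norm_num)
    linarith
  have hq5 : E * E * y ^ 2 ≤ 2 * y ^ 2 := mul_le_mul_of_nonneg_right hq4 (sq_nonneg y)
  have hq6 : 1 * (4 * y ^ 2) ≤ E * (4 * y ^ 2) :=
    mul_le_mul_of_nonneg_right (by linarith) (by positivity)
  have hq7 : 0 ≤ E * y ^ 4 := by positivity
  have e1 : 1 + E * E * (1 + y ^ 2) = (E - 1) ^ 2 + 2 * E + E * E * y ^ 2 := by ring
  have e2 : 2 * (E * (1 + y ^ 2) ^ 2) = 2 * E + E * (4 * y ^ 2) + 2 * (E * y ^ 4) := by ring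
  rw [e1, e2]
  linarith

end EXB

end Pool.Agent.H98.EX
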