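import Pool.Agent.H98.EX.PTargets
import Pool.Agent.H98.SLN.INR
import Pool.Agent.H14.EX.EXBr

/-!
# One excursion (row EXB of the board exa)
-/

set_option autoImplicit false

open MeasureTheory ProbabilityTheory Filter Topology
open scoped ENNReal
open Pool.Agent.H95 Pool.Agent.H95.Cop
open Pool.Agent.H55.CG (Mo)

namespace Pool.Agent.H98.EX

open EXB

/-- moments of the sums of the charges -/
lemma EXB.mom (ϖ : Measure ℝ) [IsProbabilityMeasure ϖ]
    (hexp : ∀ t : ℝ, Integrable (fun z => Real.exp (t * z)) ϖ) (u : ℝ) (n : ℕ) :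
    Integrable (fun x : ℕ → ℝ => Real.exp (u * H x 0 n)) (iid ϖ) ∧
    ∫ x : ℕ → ℝ, Real.exp (u * H x 0 n) ∂(iid ϖ) = Mo ϖ u ^ n := by
  have hm : Measurable (fun x : ℕ → ℝ => Real.exp (u * H x 0 n)) := by
    apply Real.measurable_exp.comp
    apply Measurable.const_mul
    unfold H
    apply Finset.measurable_sum
    intro i _
    exact measurable_pi_apply i
  have h1 := Pool.Agent.H98.SLN.lint_exp_u ϖ hexp u n
  have h0 : 0 ≤ᵐ[iid ϖ] fun x : ℕ → ℝ => Real.exp (u * H x 0 n) :=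
    Eventually.of_forall fun x => (Real.exp_pos _).le
  have hMo : 0 ≤ Mo ϖ u := integral_nonneg fun z => (Real.exp_pos _).le
  constructor
  · refine (lintegral_ofReal_ne_top_iff_integrable hm.aestronglyMeasurable h0).1 ?_
    rw [h1]
    exact ENNReal.ofReal_ne_top
  · rw [integral_eq_lintegral_of_nonneg_ae h0 hm.aestronglyMeasurable, h1,
      ENNReal.toReal_ofReal (pow_nonneg hMo n)]

/-- the bounds for the moments -/
lemma EXB.mob {ϖ : Measure ℝ} {k : ℕ} {ϑ σ τ : ℝ} (h : EP ϖ k ϑ σ τ) (hk : 1 ≤ k) (n : ℕ)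
    {v : ℝ} (hv : |v| ≤ 2) :
    Real.exp (ϑ * n / k * (2 * v ^ 2 - v / 2 + 2 * σ * v) - τ * n / k) ≤ Mo ϖ v ^ n ∧
    Mo ϖ v ^ n ≤ Real.exp (ϑ * n / k * (2 * v ^ 2 - v / 2 + 2 * σ * v) + τ * n / k) := by
  have := h.prob
  have hM : 0 < Mo ϖ v := integral_exp_pos (h.exp v)
  have hk0 : (k : ℝ) ≠ 0 := by
    have : (0 : ℝ) < k := by exact_mod_cast hk
    exact this.ne'
  have hn : (0 : ℝ) ≤ (n : ℝ) / k := by positivity
  have e1 : Mo ϖ v ^ n = (Mo ϖ v ^ k) ^ ((n : ℝ) / k) := by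
    rw [← Real.rpow_natCast, ← Real.rpow_natCast, ← Real.rpow_mul hM.le, mul_div_cancel₀ _ hk0]
  have e2 : ∀ s : ℝ, Real.exp s ^ ((n : ℝ) / k) = Real.exp (s * (n / k)) := fun s => by
    rw [← Real.exp_mul]
  rw [e1]
  constructor
  · have := Real.rpow_le_rpow (Real.exp_pos _).le (h.lo v hv) hn
    rw [e2] at this
    refine (le_of_eq ?_).trans this
    congr 1
    ring
  · have := Real.rpow_le_rpow (pow_nonneg hM.le k) (h.up v hv) hn
    rw [e2] at this
    refine this.trans (le_of_eq ?_)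
    congr 1
    ring

/-- the means with an exponential factor -/
lemma EXB.gen {ϖ : Measure ℝ} {k : ℕ} {ϑ σ τ : ℝ} (h : EP ϖ k ϑ σ τ) (n : ℕ) (r : ℝ) :
    Integrable (fun x : ℕ → ℝ => Real.exp (r * Sy k ϑ x 0 n) * Real.cosh (H x 0 n / 2))
      (iid ϖ) ∧
    ∫ x : ℕ → ℝ, Real.exp (r * Sy k ϑ x 0 n) * Real.cosh (H x 0 n / 2) ∂(iid ϖ) =
      Real.exp (ϑ * n / k * (r / 2)) *
        ((Mo ϖ (r / 2 + 1 / 2) ^ n + Mo ϖ (r / 2 - 1 / 2) ^ n) / 2) := by
  have := h.prob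
  obtain ⟨i1, j1⟩ := EXB.mom ϖ h.exp (r / 2 + 1 / 2) n
  obtain ⟨i2, j2⟩ := EXB.mom ϖ h.exp (r / 2 - 1 / 2) n
  have e : (fun x : ℕ → ℝ => Real.exp (r * Sy k ϑ x 0 n) * Real.cosh (H x 0 n / 2)) =
      fun x => Real.exp (ϑ * n / k * (r / 2)) *
        ((Real.exp ((r / 2 + 1 / 2) * H x 0 n) + Real.exp ((r / 2 - 1 / 2) * H x 0 n)) / 2) := by
    funext x
    have e1 : Real.exp (r * Sy k ϑ x 0 n) * Real.exp (H x 0 n / 2) =
        Real.exp (ϑ * n / k * (r / 2)) * Real.exp ((r / 2 + 1 / 2) * H x 0 n) := by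
      rw [← Real.exp_add, ← Real.exp_add]
      unfold Sy
      congr 1
      push_cast
      ring
    have e2 : Real.exp (r * Sy k ϑ x 0 n) * Real.exp (-(H x 0 n / 2)) =
        Real.exp (ϑ * n / k * (r / 2)) * Real.exp ((r / 2 - 1 / 2) * H x 0 n) := by
      rw [← Real.exp_add, ← Real.exp_add]
      unfold Sy
      congr 1
      push_cast
      ring
    rw [Real.cosh_eq, mul_div_assoc', mul_div_assoc', mul_add, mul_add, e1, e2]
  rw [e]
  refine ⟨((i1.add i2).div_const 2).const_mul _, ?_⟩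
  rw [integral_const_mul, integral_div, integral_add i1 i2, j1, j2]

theorem pf_EXB : T_EXB := by
  intro ϖ k ϑ σ τ ω hP n hn1 hnk
  have hep := hP.ep
  have := hep.prob
  have hk0 : (0 : ℝ) < k := by exact_mod_cast hP.k1
  have hn0 : (0 : ℝ) < n := by exact_mod_cast hn1
  have hnk' : (n : ℝ) / k ≤ 1 := by
    rw [div_le_one hk0]
    exact_mod_cast hnk
  have hnk0 : 0 < (n : ℝ) / k := div_pos hn0 hk0
  have ey : ϑ * n / k = ϑ * (n / k) := mul_div_assoc _ _ _
  have et : τ * n / k = τ * (n / k) := mul_div_assoc _ _ _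
  have ey2 : ϑ / k * n = ϑ * n / k := by ring
  have gen := fun r => EXB.gen hep n r
  have mob := fun (v : ℝ) (hv : |v| ≤ 2) => EXB.mob hep hP.k1 n hv
  have had : ad ϑ ω * (n / k) = ϑ * n / k / 4 * (1 + ω) := by
    unfold ad
    ring
  rw [ey2, had]
  have hϑ0 := hP.ϑ0
  have hϑ1 := hP.ϑ1
  have hϑω := hP.ϑω
  have hτω := hP.τω
  have hω0 := hP.ω0
  have hω1 := hP.ω1
  obtain ⟨hσ1, hσ2⟩ := abs_le.1 hP.σω
  have hy0 : 0 < ϑ * n / k := by rw [ey]; exact mul_pos hϑ0 hnk0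
  have hyϑ : ϑ * n / k ≤ ϑ := by
    rw [ey]
    exact mul_le_of_le_one_right hϑ0.le hnk'
  have ht0 : 0 ≤ τ * n / k := by rw [et]; exact mul_nonneg hP.τ0 hnk0.le
  have hty : τ * n / k ≤ ω ^ 2 * (ϑ * n / k) / 2 ^ 10 := by
    rw [et, ey]
    have := mul_le_mul_of_nonneg_right hτω hnk0.le
    refine this.trans (le_of_eq ?_)
    ring
  have hS : ∀ a b : ℝ, Real.exp (a / 2 + b) = Real.exp (a / 2 + b) := fun _ _ => rfl
  generalize hyd : ϑ * (n : ℝ) / k = y at *
  generalize htd : τ * (n : ℝ) / k = t at *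
  have hy1 : y ≤ 1 / 64 := hyϑ.trans hϑ1
  -- upper bounds
  have ub : ∀ r : ℝ, |r| ≤ 1 →
      ∫ x : ℕ → ℝ, Real.exp (r * Sy k ϑ x 0 n) * Real.cosh (H x 0 n / 2) ∂(iid ϖ) ≤
      Real.exp t * ((Real.exp (y * (1 / 4 + σ + r * (5 / 4 + r / 2 + σ))) +
        Real.exp (y * (3 / 4 - σ + r * (-3 / 4 + r / 2 + σ)))) / 2) := by
    intro r hr
    obtain ⟨hr1, hr2⟩ := abs_le.1 hr
    rw [(gen r).2]
    have m1 := (mob (r / 2 + 1 / 2) (abs_le.2 ⟨by linarith, by linarith⟩)).2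
    have m2 := (mob (r / 2 - 1 / 2) (abs_le.2 ⟨by linarith, by linarith⟩)).2
    have k1 : Real.exp (y * (r / 2)) * Real.exp (y * (2 * (r / 2 + 1 / 2) ^ 2 -
        (r / 2 + 1 / 2) / 2 + 2 * σ * (r / 2 + 1 / 2)) + t) =
        Real.exp t * Real.exp (y * (1 / 4 + σ + r * (5 / 4 + r / 2 + σ))) := by
      rw [← Real.exp_add, ← Real.exp_add]
      congr 1
      ring
    have k2 : Real.exp (y * (r / 2)) * Real.exp (y * (2 * (r / 2 - 1 / 2) ^ 2 -
        (r / 2 - 1 / 2) / 2 + 2 * σ * (r / 2 - 1 / 2)) + t) =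
        Real.exp t * Real.exp (y * (3 / 4 - σ + r * (-3 / 4 + r / 2 + σ))) := by
      rw [← Real.exp_add, ← Real.exp_add]
      congr 1
      ring
    have g1 := mul_le_mul_of_nonneg_left m1 (Real.exp_pos (y * (r / 2))).le
    have g2 := mul_le_mul_of_nonneg_left m2 (Real.exp_pos (y * (r / 2))).le
    rw [k1] at g1
    rw [k2] at g2
    linarith
  -- the mean of the hyperbolic cosine
  have e0 : (fun x : ℕ → ℝ => Real.exp (0 * Sy k ϑ x 0 n) * Real.cosh (H x 0 n / 2)) =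
      fun x : ℕ → ℝ => Real.cosh (H x 0 n / 2) := by
    funext x
    rw [zero_mul, Real.exp_zero, one_mul]
  have c1 : Integrable (fun x : ℕ → ℝ => Real.cosh (H x 0 n / 2)) (iid ϖ) := by
    rw [← e0]
    exact (gen 0).1
  have c2 : ∫ x : ℕ → ℝ, Real.cosh (H x 0 n / 2) ∂(iid ϖ) =
      (Mo ϖ (1 / 2) ^ n + Mo ϖ (-(1 / 2)) ^ n) / 2 := by
    have := (gen 0).2
    rw [e0] at this
    rw [this]
    norm_num
  have c3 : Real.exp (-t) * ((Real.exp (y * (1 / 4 + σ)) + Real.exp (y * (3 / 4 - σ))) / 2) ≤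
      ∫ x : ℕ → ℝ, Real.cosh (H x 0 n / 2) ∂(iid ϖ) := by
    rw [c2]
    have m1 := (mob (1 / 2) (abs_le.2 ⟨by norm_num, by norm_num⟩)).1
    have m2 := (mob (-(1 / 2)) (abs_le.2 ⟨by norm_num, by norm_num⟩)).1
    have k1 : Real.exp (y * (2 * (1 / 2) ^ 2 - 1 / 2 / 2 + 2 * σ * (1 / 2)) - t) =
        Real.exp (-t) * Real.exp (y * (1 / 4 + σ)) := by
      rw [← Real.exp_add]
      congr 1
      ring
    have k2 : Real.exp (y * (2 * (-(1 / 2)) ^ 2 - -(1 / 2) / 2 + 2 * σ * -(1 / 2)) - t) =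
        Real.exp (-t) * Real.exp (y * (3 / 4 - σ)) := by
      rw [← Real.exp_add]
      congr 1
      ring
    rw [k1] at m1
    rw [k2] at m2
    linarith
  have c4 : Real.exp (y * (1 / 2)) ≤
      (Real.exp (y * (1 / 4 + σ)) + Real.exp (y * (3 / 4 - σ))) / 2 := by
    have h1 : Real.exp (y * (1 / 4 + σ)) =
        Real.exp (y * (1 / 2)) * Real.exp (-(y * (1 / 4 - σ))) := by
      rw [← Real.exp_add]
      congr 1
      ring
    have h2 : Real.exp (y * (3 / 4 - σ)) =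
        Real.exp (y * (1 / 2)) * Real.exp (y * (1 / 4 - σ)) := by
      rw [← Real.exp_add]
      congr 1
      ring
    have h3 := Real.one_le_cosh (y * (1 / 4 - σ))
    rw [Real.cosh_eq] at h3
    have h4 := mul_le_mul_of_nonneg_left h3 (Real.exp_pos (y * (1 / 2))).le
    rw [h1, h2]
    linarith
  -- the square
  have d0 : (fun x : ℕ → ℝ => Real.cosh (H x 0 n / 2) ^ 2) =
      fun x => (1 + (Real.exp (1 * H x 0 n) + Real.exp (-1 * H x 0 n)) / 2) / 2 := by
    funext x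
    have h1 : Real.exp (1 * H x 0 n) = Real.exp (H x 0 n / 2) * Real.exp (H x 0 n / 2) := by
      rw [← Real.exp_add]
      congr 1
      ring
    have h2 : Real.exp (-1 * H x 0 n) = Real.exp (-(H x 0 n / 2)) * Real.exp (-(H x 0 n / 2)) := by
      rw [← Real.exp_add]
      congr 1
      ring
    have h3 : Real.exp (H x 0 n / 2) * Real.exp (-(H x 0 n / 2)) = 1 := by
      rw [← Real.exp_add, add_neg_cancel, Real.exp_zero]
    rw [Real.cosh_eq, h1, h2]
    linear_combination (1 / 2) * h3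
  obtain ⟨i1, j1⟩ := EXB.mom ϖ hep.exp 1 n
  obtain ⟨i2, j2⟩ := EXB.mom ϖ hep.exp (-1) n
  have i3 : Integrable (fun x : ℕ → ℝ =>
      (Real.exp (1 * H x 0 n) + Real.exp (-1 * H x 0 n)) / 2) (iid ϖ) := (i1.add i2).div_const 2
  have d1 : Integrable (fun x : ℕ → ℝ => Real.cosh (H x 0 n / 2) ^ 2) (iid ϖ) := by
    rw [d0]
    exact ((integrable_const 1).add i3).div_const 2
  have d2 : ∫ x : ℕ → ℝ, Real.cosh (H x 0 n / 2) ^ 2 ∂(iid ϖ) =
      (1 + (Mo ϖ 1 ^ n + Mo ϖ (-1) ^ n) / 2) / 2 := by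
    rw [d0, integral_div, integral_add (integrable_const 1) i3, integral_div,
      integral_add i1 i2, j1, j2]
    simp
  -- the four exponential factors
  have f1 : (fun x : ℕ → ℝ => Real.exp (-(Sy k ϑ x 0 n / 4)) * Real.cosh (H x 0 n / 2)) =
      fun x : ℕ → ℝ => Real.exp (-(1 / 4) * Sy k ϑ x 0 n) * Real.cosh (H x 0 n / 2) := by
    funext x
    congr 2
    ring
  have f2 : (fun x : ℕ → ℝ => Real.exp (Sy k ϑ x 0 n / 4) * Real.cosh (H x 0 n / 2)) =
      fun x : ℕ → ℝ => Real.exp (1 / 4 * Sy k ϑ x 0 n) * Real.cosh (H x 0 n / 2) := by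
    funext x
    congr 2
    ring
  have hSm : Measurable (fun x : ℕ → ℝ => H x 0 n) := by
    unfold H
    apply Finset.measurable_sum
    intro i _
    exact measurable_pi_apply i
  have s1 : Integrable (fun x : ℕ → ℝ => Sy k ϑ x 0 n * Real.cosh (H x 0 n / 2)) (iid ϖ) := by
    refine ((gen 1).1.add (gen (-1)).1).mono' ?_ (Eventually.of_forall fun x => ?_)
    · apply Measurable.aestronglyMeasurable
      unfold Sy
      exact ((hSm.div_const 2).add_const _).mul (Real.measurable_cosh.comp (hSm.div_const 2))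
    · have hc := Real.cosh_pos (H x 0 n / 2)
      show ‖Sy k ϑ x 0 n * Real.cosh (H x 0 n / 2)‖ ≤
        Real.exp (1 * Sy k ϑ x 0 n) * Real.cosh (H x 0 n / 2) +
        Real.exp (-1 * Sy k ϑ x 0 n) * Real.cosh (H x 0 n / 2)
      rw [Real.norm_eq_abs, abs_mul, abs_of_pos hc, ← add_mul]
      apply mul_le_mul_of_nonneg_right _ hc.le
      generalize Sy k ϑ x 0 n = s
      have h1 := Real.add_one_le_exp (1 * s)
      have h2 := Real.add_one_le_exp (-1 * s)
      have h3 := Real.exp_pos (1 * s)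
      have h4 := Real.exp_pos (-1 * s)
      rw [abs_le]
      constructor <;> linarith
  have hy64 : Real.exp y ≤ 1 + y + y ^ 2 := EXB.exp_le (by rw [abs_of_pos hy0]; linarith)
  refine ⟨c1, d1, ?_, ?_, s1, ?_, ?_, ?_, ?_, ?_, ?_⟩
  · rw [f1]
    exact (gen _).1
  · rw [f2]
    exact (gen _).1
  · -- (6)
    refine le_trans (le_trans (le_of_eq ?_)
      (mul_le_mul_of_nonneg_left c4 (Real.exp_pos (-t)).le)) c3
    rw [← Real.exp_add]
    congr 1
    ring
  · -- (7)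
    have h1 := ub 0 (by simp)
    rw [e0] at h1
    have h2 := EXB.avg (a := 1 / 4 + σ + 0 * (5 / 4 + 0 / 2 + σ))
      (b := 3 / 4 - σ + 0 * (-3 / 4 + 0 / 2 + σ)) (m := 1 / 2) hy0.le (by linarith)
      (by linarith) (abs_le.2 ⟨by linarith, by linarith⟩)
    refine h1.trans ((mul_le_mul_of_nonneg_left h2 (Real.exp_pos t).le).trans (le_of_eq ?_))
    rw [← mul_assoc, ← Real.exp_add]
    congr 2
    ring
  · -- (8)
    rw [d2]
    have m1 := (mob 1 (abs_le.2 ⟨by norm_num, by norm_num⟩)).2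
    have m2 := (mob (-1) (abs_le.2 ⟨by norm_num, by norm_num⟩)).2
    have k1 : Real.exp (y * (2 * 1 ^ 2 - 1 / 2 + 2 * σ * 1) + t) =
        Real.exp t * Real.exp (y * (3 / 2 + 2 * σ)) := by
      rw [← Real.exp_add]
      congr 1
      ring
    have k2 : Real.exp (y * (2 * (-1) ^ 2 - -1 / 2 + 2 * σ * -1) + t) =
        Real.exp t * Real.exp (y * (5 / 2 - 2 * σ)) := by
      rw [← Real.exp_add]
      congr 1
      ring
    rw [k1] at m1
    rw [k2] at m2
    have h2 := EXB.avg (a := 3 / 2 + 2 * σ) (b := 5 / 2 - 2 * σ) (m := 2) hy0.le (by linarith)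
      (by linarith) (abs_le.2 ⟨by linarith, by linarith⟩)
    have h3 : 1 ≤ Real.exp t := Real.one_le_exp ht0
    have h4 : Real.exp (y * 2) = Real.exp y * Real.exp y := by
      rw [← Real.exp_add]
      congr 1
      ring
    have h5 : (Real.exp (y / 2 + t) * (1 + y ^ 2)) ^ 2 =
        Real.exp t * (Real.exp t * (Real.exp y * (1 + y ^ 2) ^ 2)) := by
      rw [mul_pow, ← Real.exp_nat_mul, ← mul_assoc, ← mul_assoc, ← Real.exp_add, ← Real.exp_add]
      congr 2
      push_cast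
      ring
    rw [h5]
    rw [h4] at h2
    have hE1 : 1 + y ≤ Real.exp y := by linarith [Real.add_one_le_exp y]
    have hE := Real.exp_pos y
    generalize Real.exp y = E at *
    have hT := Real.exp_pos t
    generalize Real.exp t = T at *
    have g1 : T * ((Real.exp (y * (3 / 2 + 2 * σ)) + Real.exp (y * (5 / 2 - 2 * σ))) / 2) ≤
        T * (E * E * (1 + y ^ 2)) := mul_le_mul_of_nonneg_left h2 hT.le
    have g2 : 1 + E * E * (1 + y ^ 2) ≤ 2 * (E * (1 + y ^ 2) ^ 2) :=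
      EXB.sqb hy0.le hy1 hE1 hy64
    have g3 : T * (1 + E * E * (1 + y ^ 2)) ≤ T * (2 * (E * (1 + y ^ 2) ^ 2)) :=
      mul_le_mul_of_nonneg_left g2 hT.le
    have g4 : T * (E * (1 + y ^ 2) ^ 2) ≤ T * (T * (E * (1 + y ^ 2) ^ 2)) := by
      apply mul_le_mul_of_nonneg_left _ hT.le
      have : 0 ≤ E * (1 + y ^ 2) ^ 2 := mul_nonneg hE.le (sq_nonneg _)
      exact le_mul_of_one_le_left this h3
    linarith
  · -- (9)
    rw [f1]
    have h1 := ub (-(1 / 4)) (abs_le.2 ⟨by norm_num, by norm_num⟩)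
    have h2 := EXB.avg (a := 1 / 4 + σ + -(1 / 4) * (5 / 4 + -(1 / 4) / 2 + σ))
      (b := 3 / 4 - σ + -(1 / 4) * (-3 / 4 + -(1 / 4) / 2 + σ)) (m := 1 / 2) hy0.le (by linarith)
      (by linarith) (abs_le.2 ⟨by linarith, by linarith⟩)
    refine h1.trans ((mul_le_mul_of_nonneg_left h2 (Real.exp_pos t).le).trans (le_of_eq ?_))
    rw [← mul_assoc, ← Real.exp_add]
    congr 2
    ring
  · -- (10)
    rw [f2]
    have h1 := ub (1 / 4) (abs_le.2 ⟨by norm_num, by norm_num⟩)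
    have h2 : Real.exp (y * (1 / 4 + σ + 1 / 4 * (5 / 4 + 1 / 4 / 2 + σ))) ≤ Real.exp (2 * y) :=
      Real.exp_le_exp.2 (by
        rw [mul_comm 2 y]
        exact mul_le_mul_of_nonneg_left (by linarith) hy0.le)
    have h3 : Real.exp (y * (3 / 4 - σ + 1 / 4 * (-3 / 4 + 1 / 4 / 2 + σ))) ≤ Real.exp (2 * y) :=
      Real.exp_le_exp.2 (by
        rw [mul_comm 2 y]
        exact mul_le_mul_of_nonneg_left (by linarith) hy0.le)
    rw [Real.exp_add, mul_comm (Real.exp (2 * y))]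
    exact h1.trans (mul_le_mul_of_nonneg_left (by linarith) (Real.exp_pos t).le)
  · -- (11)
    have hr0 : 0 < ω / 8 := by linarith
    have hJ := ub (ω / 8) (abs_le.2 ⟨by linarith, by linarith⟩)
    have iJ := (gen (ω / 8)).1
    have hkey := EXB.key (y := y) (r := ω / 8) (σ := σ) (t := t) hy0.le (by linarith) hr0
      (by linarith) (by rw [abs_le]; constructor <;> linarith) ht0
      (hty.trans (le_of_eq (by ring)))
    have k1 : Real.exp (y * (1 / 4 + σ + ω / 8 * (5 / 4 + ω / 8 / 2 + σ))) =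
        Real.exp (y * (1 / 4 + σ)) * Real.exp (y * (ω / 8) * (5 / 4 + ω / 8 / 2 + σ)) := by
      rw [← Real.exp_add]
      congr 1
      ring
    have k2 : Real.exp (y * (3 / 4 - σ + ω / 8 * (-3 / 4 + ω / 8 / 2 + σ))) =
        Real.exp (y * (3 / 4 - σ)) * Real.exp (y * (ω / 8) * (-3 / 4 + ω / 8 / 2 + σ)) := by
      rw [← Real.exp_add]
      congr 1
      ring
    rw [k1, k2] at hJ
    have hpt : ∫ x : ℕ → ℝ, Sy k ϑ x 0 n * Real.cosh (H x 0 n / 2) ∂(iid ϖ) ≤
        ∫ x : ℕ → ℝ, (Real.exp (ω / 8 * Sy k ϑ x 0 n) * Real.cosh (H x 0 n / 2) -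
          Real.cosh (H x 0 n / 2)) / (ω / 8) ∂(iid ϖ) := by
      refine integral_mono s1 ((iJ.sub c1).div_const _) fun x => ?_
      show Sy k ϑ x 0 n * Real.cosh (H x 0 n / 2) ≤
        (Real.exp (ω / 8 * Sy k ϑ x 0 n) * Real.cosh (H x 0 n / 2) -
          Real.cosh (H x 0 n / 2)) / (ω / 8)
      rw [le_div_iff₀ hr0]
      have hc := Real.cosh_pos (H x 0 n / 2)
      have h1 := mul_le_mul_of_nonneg_right (Real.add_one_le_exp (ω / 8 * Sy k ϑ x 0 n)) hc.le
      linarith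
    rw [integral_div, integral_sub iJ c1] at hpt
    refine hpt.trans ?_
    rw [div_le_iff₀ hr0]
    have hI := c3
    generalize (∫ x : ℕ → ℝ, Real.cosh (H x 0 n / 2) ∂(iid ϖ)) = I at hI ⊢
    generalize (∫ x : ℕ → ℝ, Real.exp (ω / 8 * Sy k ϑ x 0 n) * Real.cosh (H x 0 n / 2)
      ∂(iid ϖ)) = J at hJ ⊢
    have e2t : Real.exp (2 * t) = Real.exp t * Real.exp t := by
      rw [← Real.exp_add]
      congr 1
      ring
    have emt : Real.exp (-t) * Real.exp t = 1 := by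
      rw [← Real.exp_add, neg_add_cancel, Real.exp_zero]
    rw [e2t] at hkey
    have hT := Real.exp_pos t
    have hT' := Real.exp_pos (-t)
    generalize Real.exp (-t) = T' at *
    generalize Real.exp t = T at *
    generalize Real.exp (y * (1 / 4 + σ)) * Real.exp (y * (ω / 8) * (5 / 4 + ω / 8 / 2 + σ)) +
      Real.exp (y * (3 / 4 - σ)) * Real.exp (y * (ω / 8) * (-3 / 4 + ω / 8 / 2 + σ)) = Z at *
    generalize Real.exp (y * (1 / 4 + σ)) + Real.exp (y * (3 / 4 - σ)) = Y at *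
    have h1 := mul_le_mul_of_nonneg_left hkey hT'.le
    have h2 : T' * (T * T * Z) = T * Z := by
      calc T' * (T * T * Z) = (T' * T) * (T * Z) := by ring
        _ = T * Z := by rw [emt, one_mul]
    rw [h2] at h1
    have hw : 0 ≤ 1 + ω / 8 * (y / 4 * (1 + 8 * (ω / 8))) := by positivity
    have h3 := mul_le_mul_of_nonneg_right hI hw
    have h4 : T' * (Y * (1 + ω / 8 * (y / 4 * (1 + 8 * (ω / 8))))) =
        2 * (T' * (Y / 2) * (1 + ω / 8 * (y / 4 * (1 + 8 * (ω / 8))))) := by ring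
    have h5 : I * (1 + ω / 8 * (y / 4 * (1 + 8 * (ω / 8)))) =
        I + y / 4 * (1 + ω) * I * (ω / 8) := by ring
    have h6 : T * (Z / 2) = T * Z / 2 := by ring
    rw [h4] at h1
    rw [h5] at h3
    rw [h6] at hJ
    linarith

end Pool.Agent.H98.EX
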