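import Pool.Agent.H98.EX.KTargets
import Pool.Agent.H99.CE.Targets

/-!
# The mean of the low stretches (row SLX of the board exa)
-/

set_option autoImplicit false

open MeasureTheory ProbabilityTheory Filter Topology
open scoped ENNReal
open Pool.Agent.H95 Pool.Agent.H95.Cop Pool.Agent.H96.Cop
open Pool.Agent.H99.CE (BX w1 cq tb Gf Hf Kd ld mx ab eb TT FL EE lg Reg)

namespace Pool.Agent.H98.EX

theorem pf_SLX (_hPFM : Pool.Agent.H99.CE.T_PFM) (hHFT : Pool.Agent.H99.CE.T_HFT)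
    (hNAX : T_NAX) : T_SLX := by
  intro K ν _ e α s c δ P k B hα hs hθ1 he hc hδ hk hkB hP hQ
  obtain ⟨hna, htb, -, -, -, -, hθ0, hle⟩ := hNAX e α s c δ k B 1 hα hs he hc hδ hk hkB le_rfl
  set t := tb α c δ B with ht
  set θ := te α s with hθ
  have h1 : ∀ x : ℕ → ℝ, FL (fun b => BX (w1 K B) B b) (ENNReal.ofReal t) x ≤
      ENNReal.ofReal (t ^ (1 - θ)) * BX (w1 K B) B 0 x ^ θ := by
    intro x
    unfold FL
    split_ifs with h
    · exact (hHFT t θ _ htb hθ0 hθ1).2.2 h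
    · exact bot_le
  have h2 : ∫⁻ x, BX (w1 K B) B 0 x ^ θ ∂(iid ν) ≤
      ENNReal.ofReal P * ENNReal.ofReal (ue e α s c δ k B) := by
    have h3 : ∫⁻ x, BX (w1 K B) B 0 x ^ θ ∂(iid ν) ≤
        ∑' b : ℕ, ∫⁻ x, BX (w1 K B) B b x ^ te α s ∂(iid ν) :=
      ENNReal.le_tsum (f := fun b : ℕ => ∫⁻ x, BX (w1 K B) B b x ^ te α s ∂(iid ν)) 0
    refine h3.trans ?_
    unfold QTe at hQ
    rwa [ENNReal.div_le_iff (ENNReal.ofReal_pos.2 hna).ne' ENNReal.ofReal_ne_top] at hQ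
  calc ∫⁻ x, FL (fun b => BX (w1 K B) B b) (ENNReal.ofReal t) x ∂(iid ν)
      ≤ ∫⁻ x, ENNReal.ofReal (t ^ (1 - θ)) * BX (w1 K B) B 0 x ^ θ ∂(iid ν) :=
        lintegral_mono h1
    _ = ENNReal.ofReal (t ^ (1 - θ)) * ∫⁻ x, BX (w1 K B) B 0 x ^ θ ∂(iid ν) :=
        lintegral_const_mul' _ _ ENNReal.ofReal_ne_top
    _ ≤ ENNReal.ofReal (t ^ (1 - θ)) *
        (ENNReal.ofReal P * ENNReal.ofReal (ue e α s c δ k B)) := by gcongr
    _ = ENNReal.ofReal (t ^ (1 - θ) * (P * ue e α s c δ k B)) := by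
        rw [← ENNReal.ofReal_mul hP, ← ENNReal.ofReal_mul (by positivity)]
    _ ≤ ENNReal.ofReal (e * P * t) := by
        apply ENNReal.ofReal_le_ofReal
        have h4 : t ^ (1 - θ) * t ^ θ = t := by
          rw [← Real.rpow_add htb, sub_add_cancel, Real.rpow_one]
        calc t ^ (1 - θ) * (P * ue e α s c δ k B) ≤ t ^ (1 - θ) * (P * (e * t ^ θ)) :=
              mul_le_mul_of_nonneg_left (mul_le_mul_of_nonneg_left hle hP) (by positivity)
          _ = e * P * (t ^ (1 - θ) * t ^ θ) := by ring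
          _ = e * P * t := by rw [h4]

end Pool.Agent.H98.EX
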